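import Pool.Agent.H642R3.Q.EvenClass

set_option autoImplicit false

/-!
# Dominating sets of (n-1)/2 queens in one parity class exist only for n = 3, 11

Squares of the board of side `n = 2m+1` are pairs of integers `(x, y)` with `|x|, |y| ≤ m`.
The theorem: if `m` queens, all with both (centred) coordinates even, dominate this board, then
`m = 1` or `m = 5`, that is `n = 3` or `n = 11`.

The proof: the occupied columns, rows, differences and sums are determined by counting, the second
moment gives the Pell equation `3 y² = m² + 2`, and a linear programming certificate (piecewise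
quadratic weights for rows, columns and diagonals) excludes all remaining `m`.
-/

namespace Pool.Agent.Results.MP_27266b_co.EvenClass

/-- If `m` squares with even centred coordinates dominate the board of side `2m+1`, then
`m = 1` or `m = 5`. -/
theorem result (m : ℕ) (D : Finset (ℤ × ℤ)) (hcard : D.card = m)
    (heven : ∀ q ∈ D, Even q.1 ∧ Even q.2)
    (hdom : ∀ x y : ℤ, |x| ≤ m → |y| ≤ m →
      ∃ q ∈ D, x = q.1 ∨ y = q.2 ∨ x - y = q.1 - q.2 ∨ x + y = q.1 + q.2) :
    m = 1 ∨ m = 5 :=
  Pool.Agent.H642R3.Q.even_class m D hcard heven hdom

end Pool.Agent.Results.MP_27266b_co.EvenClass
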